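import Mathlib
import Pool.Agent.V11205.MC.MuGrowth

namespace Pool.Agent.Results.MP_675def_co.SuperpolynomialCollisions

open Filter Topology Pool.Agent.V11205.MC

lemma not_isBigO {f g : ℕ → ℝ} (hf : ∀ n, 0 ≤ f n) (hg : ∀ n, 3 ≤ n → 0 < g n)
    (h : Tendsto (fun n => f n / g n) atTop atTop) : ¬ (f =O[atTop] g) := by
  intro hO
  obtain ⟨c, hc⟩ := hO.bound
  obtain ⟨n, h1, h2, h3⟩ := (hc.and ((h.eventually_gt_atTop c).and (eventually_ge_atTop 3))).exists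
  have hgn := hg n h3
  rw [Real.norm_of_nonneg (hf n), Real.norm_of_nonneg hgn.le] at h1
  rw [lt_div_iff₀ hgn] at h2
  linarith

lemma ratio {f g : ℕ → ℝ} (hf : ∀ n, 0 ≤ f n) (hg : ∀ n, 3 ≤ n → 0 < g n ∧ g n ≤ (n : ℝ) ^ 3)
    (h : Tendsto (fun n => f n / (n : ℝ) ^ 3) atTop atTop) :
    Tendsto (fun n => f n / g n) atTop atTop := by
  apply tendsto_atTop_mono' atTop _ h
  filter_upwards [eventually_ge_atTop 3] with n hn
  exact div_le_div_of_nonneg_left (hf n) (hg n hn).1 (hg n hn).2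

lemma log_bounds (n : ℕ) (hn : 3 ≤ n) : 0 < Real.log n ∧ Real.log n ≤ n := by
  have hn' : (3 : ℝ) ≤ n := by exact_mod_cast hn
  exact ⟨Real.log_pos (by linarith),
    (Real.log_le_sub_one_of_pos (by linarith)).trans (by linarith)⟩

lemma gC (n : ℕ) (hn : 3 ≤ n) : 0 < (n : ℝ) ^ 2 * Real.log n ∧
    (n : ℝ) ^ 2 * Real.log n ≤ (n : ℝ) ^ 3 := by
  obtain ⟨h1, h2⟩ := log_bounds n hn
  have hn' : (3 : ℝ) ≤ n := by exact_mod_cast hn
  refine ⟨by positivity, ?_⟩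
  calc (n : ℝ) ^ 2 * Real.log n ≤ (n : ℝ) ^ 2 * n := by gcongr
    _ = (n : ℝ) ^ 3 := by ring

lemma gD (n : ℕ) (hn : 3 ≤ n) : 0 < (n : ℝ) ^ (3 / 2 : ℝ) * Real.sqrt (Real.log n) ∧
    (n : ℝ) ^ (3 / 2 : ℝ) * Real.sqrt (Real.log n) ≤ (n : ℝ) ^ 3 := by
  obtain ⟨h1, h2⟩ := log_bounds n hn
  have hn' : (3 : ℝ) ≤ n := by exact_mod_cast hn
  refine ⟨by positivity, ?_⟩
  have hs : Real.sqrt (Real.log n) ≤ n := by
    rw [Real.sqrt_le_left (by linarith)]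
    nlinarith
  have hp : (n : ℝ) ^ (3 / 2 : ℝ) ≤ (n : ℝ) ^ 2 := by
    rw [← Real.rpow_natCast]
    apply Real.rpow_le_rpow_of_exponent_le (by linarith)
    norm_num
  calc (n : ℝ) ^ (3 / 2 : ℝ) * Real.sqrt (Real.log n) ≤ (n : ℝ) ^ 2 * n := by
        apply mul_le_mul hp hs (by positivity) (by positivity)
    _ = (n : ℝ) ^ 3 := by ring

lemma gmu (n : ℕ) (hn : 3 ≤ n) : 0 < Real.sqrt (n * Real.log n) ∧
    Real.sqrt (n * Real.log n) ≤ (n : ℝ) ^ 3 := by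
  obtain ⟨h1, h2⟩ := log_bounds n hn
  have hn' : (3 : ℝ) ≤ n := by exact_mod_cast hn
  refine ⟨Real.sqrt_pos.2 (by positivity), ?_⟩
  calc Real.sqrt (n * Real.log n) ≤ Real.sqrt (n * n) := by
        apply Real.sqrt_le_sqrt
        gcongr
    _ = n := Real.sqrt_mul_self (by linarith)
    _ = (n : ℝ) ^ 1 := (pow_one _).symm
    _ ≤ (n : ℝ) ^ 3 := pow_le_pow_right₀ (by linarith) (by norm_num)

/-- All three statistics `C(n)`, `D(n)`, `μ(n)` grow faster than every power of `n`; so none of the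
three upper bounds `C(n) = O(n² log n)`, `D(n) = O(n^{3/2} √(log n))`, `μ(n) = O(√(n log n))`
holds, and all three ratios even tend to infinity.  Moreover
`|𝓜_n| ≤ D(n+5) ≤ C(n+5) ≤ |𝓜_{n+5}|²`. -/
theorem result :
    (∀ k : ℕ, Tendsto (fun n : ℕ => (C n : ℝ) / (n : ℝ) ^ k) atTop atTop) ∧
    (∀ k : ℕ, Tendsto (fun n : ℕ => (D n : ℝ) / (n : ℝ) ^ k) atTop atTop) ∧
    (∀ k : ℕ, Tendsto (fun n : ℕ => (mu n : ℝ) / (n : ℝ) ^ k) atTop atTop) ∧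
    Tendsto (fun n : ℕ => (C n : ℝ) / ((n : ℝ) ^ 2 * Real.log n)) atTop atTop ∧
    Tendsto (fun n : ℕ => (D n : ℝ) / ((n : ℝ) ^ (3 / 2 : ℝ) * Real.sqrt (Real.log n)))
      atTop atTop ∧
    Tendsto (fun n : ℕ => (mu n : ℝ) / Real.sqrt (n * Real.log n)) atTop atTop ∧
    ¬ ((fun n : ℕ => (C n : ℝ)) =O[atTop] (fun n : ℕ => (n : ℝ) ^ 2 * Real.log n)) ∧
    ¬ ((fun n : ℕ => (D n : ℝ)) =O[atTop]
        (fun n : ℕ => (n : ℝ) ^ (3 / 2 : ℝ) * Real.sqrt (Real.log n))) ∧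
    ¬ ((fun n : ℕ => (mu n : ℝ)) =O[atTop] (fun n : ℕ => Real.sqrt (n * Real.log n))) ∧
    (∀ n : ℕ, (M n).card ≤ D (n + 5) ∧ D (n + 5) ≤ C (n + 5) ∧
      C (n + 5) ≤ (M (n + 5)).card ^ 2) ∧
    (∀ n : ℕ, ∃ t, r n t = mu n) := by
  have hC := ratio (f := fun n => (C n : ℝ)) (fun n => by positivity) gC (C_tendsto 3)
  have hD := ratio (f := fun n => (D n : ℝ)) (fun n => by positivity) gD (D_tendsto 3)
  have hmu := ratio (f := fun n => (mu n : ℝ)) (fun n => by positivity) gmu (mu_tendsto 3)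
  refine ⟨C_tendsto, D_tendsto, mu_tendsto, hC, hD, hmu, ?_, ?_, ?_, ?_, mu_attained⟩
  · exact not_isBigO (fun n => by positivity) (fun n hn => (gC n hn).1) hC
  · exact not_isBigO (fun n => by positivity) (fun n hn => (gD n hn).1) hD
  · exact not_isBigO (fun n => by positivity) (fun n hn => (gmu n hn).1) hmu
  · exact fun n => ⟨card_M_le_D n, D_le_C _, C_le _⟩

end Pool.Agent.Results.MP_675def_co.SuperpolynomialCollisions
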